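import Mathlib

/-!
# Length-increasing embeddings of open sets into the unit ball

For `n ≥ 2` let `φ` be a continuous function which has infinite variation on every interval. The
homeomorphism `(x₁, …, xₙ) ↦ (X₁, …, Xₙ)` of `ℝⁿ` with `X₁ = x₁ + φ (x₂), …, Xₙ₋₁ = xₙ₋₁ + φ (xₙ)` and
`Xₙ = xₙ + φ (X₁)` maps every nonconstant rectifiable curve to a curve of infinite length. For `n = 1`
the map `x ↦ vol (U ∩ (-∞, x)) - 1` is a translation on every component of `U`.
-/

set_option autoImplicit false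

open MeasureTheory Set Filter Topology
open scoped ENNReal

namespace Pool.Agent.Results.MP_ecd4e3_gt.LengthIncreasingEmbedding

/-! ### A continuous function with infinite variation on every interval -/

/-- The distance to the nearest integer. -/
noncomputable def s (x : ℝ) : ℝ := ‖(x : UnitAddCircle)‖

lemma s_nonneg (x : ℝ) : 0 ≤ s x := norm_nonneg _

lemma s_le (x : ℝ) : s x ≤ 1 / 2 := by
  have := AddCircle.norm_le_half_period (1 : ℝ) (x := (x : UnitAddCircle)) one_ne_zero
  simpa [s] using this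

lemma s_neg (x : ℝ) : s (-x) = s x := by
  unfold s
  rw [AddCircle.coe_neg, norm_neg]

lemma s_int (m : ℤ) : s m = 0 := by
  unfold s
  rw [UnitAddCircle.norm_eq]
  simp

lemma s_add_int (x : ℝ) (m : ℤ) : s (x + m) = s x := by
  unfold s
  rw [UnitAddCircle.norm_eq, UnitAddCircle.norm_eq, round_add_intCast]
  push_cast
  ring_nf

lemma s_half : s (1 / 2) = 1 / 2 := by
  have := AddCircle.norm_half_period_eq (1 : ℝ)
  simpa [s] using this

lemma s_sub_le (x y : ℝ) : |s x - s y| ≤ |x - y| := by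
  have h1 : |s x - s y| ≤ ‖((x : ℝ) : UnitAddCircle) - (y : UnitAddCircle)‖ :=
    abs_norm_sub_norm_le _ _
  refine h1.trans ?_
  rw [← AddCircle.coe_sub, UnitAddCircle.norm_eq]
  have := round_le (x - y) 0
  simpa using this

lemma s_continuous : Continuous s :=
  continuous_norm.comp (AddCircle.continuous_mk' (1 : ℝ))

/-- The `k`-th term. -/
noncomputable def term (k : ℕ) (x : ℝ) : ℝ := (1 / 4) ^ k * s (16 ^ k * x)

/-- A continuous function with infinite variation on every interval. -/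
noncomputable def φ (x : ℝ) : ℝ := ∑' k : ℕ, term k x

lemma term_norm_le (k : ℕ) (x : ℝ) : ‖term k x‖ ≤ (1 / 4) ^ k := by
  rw [term, Real.norm_of_nonneg (mul_nonneg (by positivity) (s_nonneg _))]
  have h1 := s_le (16 ^ k * x)
  have h2 : (0 : ℝ) ≤ (1 / 4) ^ k := by positivity
  nlinarith

lemma summable_geom : Summable fun k : ℕ => ((1 / 4 : ℝ)) ^ k :=
  summable_geometric_of_lt_one (by norm_num) (by norm_num)

lemma φ_continuous : Continuous φ := by
  refine continuous_tsum (u := fun k : ℕ => ((1 / 4 : ℝ)) ^ k) ?_ summable_geom term_norm_le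
  intro k
  unfold term
  exact continuous_const.mul (s_continuous.comp (by fun_prop))

lemma φ_neg (x : ℝ) : φ (-x) = φ x := by
  unfold φ term
  congr 1
  funext k
  rw [mul_neg, s_neg]

/-- The values on the `n`-th grid. -/
lemma φ_grid (n : ℕ) (i : ℤ) : φ (i / (2 * 16 ^ n)) = ∑ k ∈ Finset.range (n + 1), term k (i / (2 * 16 ^ n)) := by
  unfold φ
  refine tsum_eq_sum ?_
  intro k hk
  rw [Finset.mem_range, not_lt] at hk
  obtain ⟨j, rfl⟩ := Nat.exists_eq_add_of_le hk
  have h1 : (16 : ℝ) ^ (n + 1 + j) * (i / (2 * 16 ^ n)) = ((8 * 16 ^ j * i : ℤ) : ℝ) := by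
    push_cast
    field_simp
    ring
  rw [term, h1, s_int, mul_zero]

lemma s_step (i : ℤ) : |s ((i + 1) / 2) - s (i / 2)| = 1 / 2 := by
  rcases Int.even_or_odd' i with ⟨m, rfl | rfl⟩
  · have h1 : (((2 * m : ℤ) : ℝ) + 1) / 2 = 1 / 2 + (m : ℝ) := by push_cast; ring
    have h2 : ((2 * m : ℤ) : ℝ) / 2 = (m : ℝ) := by push_cast; ring
    rw [h1, h2, s_add_int, s_half, s_int]
    norm_num
  · have h1 : (((2 * m + 1 : ℤ) : ℝ) + 1) / 2 = ((m + 1 : ℤ) : ℝ) := by push_cast; ring
    have h2 : ((2 * m + 1 : ℤ) : ℝ) / 2 = 1 / 2 + (m : ℝ) := by push_cast; ring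
    rw [h1, h2, s_add_int, s_half, s_int]
    norm_num

lemma φ_step (n : ℕ) (i : ℤ) :
    (1 / 4) ^ n / 3 ≤ |φ (((i + 1 : ℤ) : ℝ) / (2 * 16 ^ n)) - φ ((i : ℝ) / (2 * 16 ^ n))| := by
  rw [φ_grid, φ_grid, Finset.sum_range_succ, Finset.sum_range_succ]
  have h1 : |term n (((i + 1 : ℤ) : ℝ) / (2 * 16 ^ n)) - term n ((i : ℝ) / (2 * 16 ^ n))|
      = (1 / 4) ^ n / 2 := by
    unfold term
    have e1 : (16 : ℝ) ^ n * (((i + 1 : ℤ) : ℝ) / (2 * 16 ^ n)) = (i + 1) / 2 := by
      push_cast; field_simp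
    have e2 : (16 : ℝ) ^ n * ((i : ℝ) / (2 * 16 ^ n)) = i / 2 := by field_simp
    rw [e1, e2, ← mul_sub, abs_mul, s_step, abs_of_nonneg (by positivity)]
    ring
  have h2 : |∑ k ∈ Finset.range n, term k (((i + 1 : ℤ) : ℝ) / (2 * 16 ^ n)) -
      ∑ k ∈ Finset.range n, term k ((i : ℝ) / (2 * 16 ^ n))| ≤ (1 / 4) ^ n / 6 := by
    rw [← Finset.sum_sub_distrib]
    refine (Finset.abs_sum_le_sum_abs _ _).trans ?_
    have h3 : ∀ k ∈ Finset.range n, |term k (((i + 1 : ℤ) : ℝ) / (2 * 16 ^ n)) -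
        term k ((i : ℝ) / (2 * 16 ^ n))| ≤ 4 ^ k / (2 * 16 ^ n) := by
      intro k _
      unfold term
      rw [← mul_sub, abs_mul, abs_of_nonneg (by positivity : (0 : ℝ) ≤ (1 / 4) ^ k)]
      have h4 := s_sub_le (16 ^ k * (((i + 1 : ℤ) : ℝ) / (2 * 16 ^ n))) (16 ^ k * ((i : ℝ) / (2 * 16 ^ n)))
      have h5 : (16 : ℝ) ^ k * (((i + 1 : ℤ) : ℝ) / (2 * 16 ^ n)) - 16 ^ k * ((i : ℝ) / (2 * 16 ^ n))
          = 16 ^ k / (2 * 16 ^ n) := by
        push_cast; field_simp; ring
      rw [h5, abs_of_nonneg (by positivity : (0 : ℝ) ≤ 16 ^ k / (2 * 16 ^ n))] at h4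
      calc (1 / 4 : ℝ) ^ k * |s (16 ^ k * (((i + 1 : ℤ) : ℝ) / (2 * 16 ^ n))) -
            s (16 ^ k * ((i : ℝ) / (2 * 16 ^ n)))| ≤ (1 / 4) ^ k * (16 ^ k / (2 * 16 ^ n)) := by gcongr
        _ = 4 ^ k / (2 * 16 ^ n) := by
          rw [← mul_div_assoc, ← mul_pow]; norm_num
    refine (Finset.sum_le_sum h3).trans ?_
    rw [← Finset.sum_div, geom_sum_eq (by norm_num)]
    have h6 : (1 / 4 : ℝ) ^ n = 4 ^ n / 16 ^ n := by
      rw [← div_pow]; norm_num
    rw [h6, div_le_iff₀ (by positivity)]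
    have h7 : (4 : ℝ) ^ n / 16 ^ n / 6 * (2 * 16 ^ n) = 4 ^ n / 3 := by
      field_simp; norm_num
    rw [h7]
    norm_num
    have : (0 : ℝ) ≤ 1 / 3 := by norm_num
    linarith
  set a := term n (((i + 1 : ℤ) : ℝ) / (2 * 16 ^ n))
  set b := term n ((i : ℝ) / (2 * 16 ^ n))
  set c := ∑ k ∈ Finset.range n, term k (((i + 1 : ℤ) : ℝ) / (2 * 16 ^ n))
  set d := ∑ k ∈ Finset.range n, term k ((i : ℝ) / (2 * 16 ^ n))
  have h8 : |a - b| ≤ |c + a - (d + b)| + |c - d| := by
    have : a - b = (c + a - (d + b)) - (c - d) := by ring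
    rw [this]
    exact abs_sub _ _
  have h9 : (0 : ℝ) < (1 / 4) ^ n := by positivity
  linarith

/-- `φ` has infinite variation on every interval. -/
lemma φ_variation {a b : ℝ} (hab : a < b) : eVariationOn φ (Icc a b) = ∞ := by
  by_contra hne
  obtain ⟨M, hM⟩ : ∃ M : ℝ, 0 ≤ M ∧ eVariationOn φ (Icc a b) = ENNReal.ofReal M :=
    ⟨(eVariationOn φ (Icc a b)).toReal, ENNReal.toReal_nonneg, (ENNReal.ofReal_toReal hne).symm⟩
  -- choose the grid
  obtain ⟨n, hn⟩ : ∃ n : ℕ, 2 < (b - a) * 16 ^ n ∧ 3 * M < (b - a) * 4 ^ n := by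
    have h1 : Tendsto (fun n : ℕ => (b - a) * (16 : ℝ) ^ n) atTop atTop :=
      (tendsto_pow_atTop_atTop_of_one_lt (by norm_num)).const_mul_atTop (by linarith)
    have h2 : Tendsto (fun n : ℕ => (b - a) * (4 : ℝ) ^ n) atTop atTop :=
      (tendsto_pow_atTop_atTop_of_one_lt (by norm_num)).const_mul_atTop (by linarith)
    exact ((h1.eventually_gt_atTop 2).and (h2.eventually_gt_atTop (3 * M))).exists
  obtain ⟨hn1, hn2⟩ := hn
  set Q : ℝ := 2 * 16 ^ n with hQ
  have hQ0 : 0 < Q := by positivity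
  set i0 : ℤ := ⌈a * Q⌉ with hi0
  set N : ℕ := ⌊(b - a) * Q - 1⌋₊ with hN
  have hpos : 0 ≤ (b - a) * Q - 1 := by
    rw [hQ]; nlinarith
  have hN1 : (N : ℝ) ≤ (b - a) * Q - 1 := Nat.floor_le hpos
  have hN2 : (b - a) * Q - 1 < N + 1 := Nat.lt_floor_add_one _
  set u : ℕ → ℝ := fun j => ((i0 + j : ℤ) : ℝ) / Q with hu
  have hmono : Monotone u := by
    intro j k hjk
    simp only [hu]
    have : (j : ℝ) ≤ k := by exact_mod_cast hjk
    push_cast
    gcongr
  have hmem : ∀ j ≤ N, u j ∈ Icc a b := by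
    intro j hj
    have hj' : (j : ℝ) ≤ N := by exact_mod_cast hj
    have h1 : a * Q ≤ i0 := Int.le_ceil _
    have h2 : (i0 : ℝ) < a * Q + 1 := Int.ceil_lt_add_one _
    simp only [hu]
    push_cast
    constructor
    · rw [le_div_iff₀ hQ0]
      have : (0 : ℝ) ≤ j := by positivity
      linarith
    · rw [div_le_iff₀ hQ0]
      nlinarith
  have h3 := eVariationOn.sum_le_of_monotoneOn_Iic (f := φ) (s := Icc a b) (n := N) (u := u)
    (hmono.monotoneOn _) hmem
  have h4 : ∀ j ∈ Finset.range N, ENNReal.ofReal ((1 / 4) ^ n / 3) ≤ edist (φ (u (j + 1))) (φ (u j)) := by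
    intro j _
    rw [edist_dist, Real.dist_eq]
    refine ENNReal.ofReal_le_ofReal ?_
    have := φ_step n (i0 + j)
    simp only [hu, hQ]
    convert this using 5
    push_cast
    ring
  have h5 : (N : ℝ≥0∞) * ENNReal.ofReal ((1 / 4) ^ n / 3) ≤ ENNReal.ofReal M := by
    rw [← hM.2]
    refine le_trans ?_ h3
    have := Finset.card_nsmul_le_sum _ _ _ h4
    simpa using this
  have h6 : (N : ℝ) * ((1 / 4) ^ n / 3) ≤ M := by
    rw [← ENNReal.ofReal_natCast, ← ENNReal.ofReal_mul (by positivity)] at h5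
    exact (ENNReal.ofReal_le_ofReal_iff hM.1).1 h5
  have h7 : (b - a) * 16 ^ n ≤ N := by
    rw [hQ] at hN2; nlinarith
  have h8 : (b - a) * 16 ^ n * ((1 / 4) ^ n / 3) ≤ M :=
    le_trans (by gcongr) h6
  have h9 : (b - a) * 16 ^ n * ((1 / 4) ^ n / 3) = (b - a) * 4 ^ n / 3 := by
    have : (16 : ℝ) ^ n * (1 / 4) ^ n = 4 ^ n := by rw [← mul_pow]; norm_num
    calc (b - a) * 16 ^ n * ((1 / 4) ^ n / 3) = (b - a) * (16 ^ n * (1 / 4) ^ n) / 3 := by ring
      _ = _ := by rw [this]
  rw [h9] at h8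
  linarith

/-! ### Curves -/

/-- Composition with a function with infinite variation on every interval. -/
lemma comp_variation_aux {y : ℝ → ℝ} {t0 t1 : ℝ} (ht : t0 ≤ t1) (hy : ContinuousOn y (Icc t0 t1))
    (hlt : y t0 < y t1) : eVariationOn (φ ∘ y) (Icc t0 t1) = ∞ := by
  -- a monotone right inverse of `y`
  have hex : ∀ v ∈ Icc (y t0) (y t1), (Icc t0 t1 ∩ y ⁻¹' (Ici v)).Nonempty := by
    intro v hv
    exact ⟨t1, right_mem_Icc.2 ht, hv.2⟩
  have hcl : ∀ v, IsClosed (Icc t0 t1 ∩ y ⁻¹' (Ici v)) := fun v =>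
    hy.preimage_isClosed_of_isClosed isClosed_Icc isClosed_Ici
  have hbdd : ∀ v, BddBelow (Icc t0 t1 ∩ y ⁻¹' (Ici v)) := fun v => ⟨t0, fun x hx => hx.1.1⟩
  set τ : ℝ → ℝ := fun v => sInf (Icc t0 t1 ∩ y ⁻¹' (Ici v)) with hτ
  have hmem : ∀ v ∈ Icc (y t0) (y t1), τ v ∈ Icc t0 t1 ∩ y ⁻¹' (Ici v) := fun v hv =>
    (hcl v).csInf_mem (hex v hv) (hbdd v)
  have hmono : MonotoneOn τ (Icc (y t0) (y t1)) := by
    intro v _ w hw hvw
    exact csInf_le_csInf (hbdd v) (hex w hw) (fun x hx => ⟨hx.1, hvw.trans hx.2⟩)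
  have hinv : ∀ v ∈ Icc (y t0) (y t1), y (τ v) = v := by
    intro v hv
    have h1 := hmem v hv
    refine le_antisymm ?_ h1.2
    by_contra hcon
    rw [not_le] at hcon
    -- by continuity there is an earlier point with value `v`
    have h2 : ContinuousOn y (Icc t0 (τ v)) := hy.mono (Icc_subset_Icc_right h1.1.2)
    have h3 := intermediate_value_Icc h1.1.1 h2
    obtain ⟨r, hr, hr2⟩ := h3 ⟨hv.1, hcon.le⟩
    have h4 : τ v ≤ r := csInf_le (hbdd v) ⟨⟨hr.1, hr.2.trans h1.1.2⟩, hr2.ge⟩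
    have h5 : r = τ v := le_antisymm hr.2 h4
    rw [h5] at hr2
    linarith
  have h1 := eVariationOn.comp_le_of_monotoneOn (φ ∘ y) (s := Icc t0 t1) (t := Icc (y t0) (y t1)) τ hmono
    (fun v hv => (hmem v hv).1)
  have h2 : eVariationOn ((φ ∘ y) ∘ τ) (Icc (y t0) (y t1)) = eVariationOn φ (Icc (y t0) (y t1)) := by
    refine eVariationOn.congr ?_
    intro v hv
    simp only [Function.comp]
    rw [hinv v hv]
  rw [h2, φ_variation hlt] at h1
  exact top_le_iff.1 h1

lemma comp_variation {y : ℝ → ℝ} {a b : ℝ} (hy : ContinuousOn y (Icc a b)) {t0 t1 : ℝ}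
    (h0 : t0 ∈ Icc a b) (h1 : t1 ∈ Icc a b) (hne : y t0 ≠ y t1) :
    eVariationOn (fun t => φ (y t)) (Icc a b) = ∞ := by
  wlog ht : t0 ≤ t1 generalizing t0 t1
  · exact this h1 h0 hne.symm (le_of_not_ge ht)
  have hsub : Icc t0 t1 ⊆ Icc a b := Icc_subset_Icc h0.1 h1.2
  rcases lt_or_gt_of_ne hne with h | h
  · have h2 := comp_variation_aux ht (hy.mono hsub) h
    exact top_le_iff.1 (h2 ▸ eVariationOn.mono _ hsub)
  · have h2 := comp_variation_aux (y := fun t => -y t) ht (hy.mono hsub).neg (by linarith)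
    have h3 : (φ ∘ fun t => -y t) = fun t => φ (y t) := by
      funext t; simp only [Function.comp, φ_neg]
    rw [h3] at h2
    exact top_le_iff.1 (h2 ▸ eVariationOn.mono _ hsub)

lemma variation_sub_le (f g : ℝ → ℝ) (S : Set ℝ) :
    eVariationOn (fun t => f t - g t) S ≤ eVariationOn f S + eVariationOn g S := by
  refine iSup_le ?_
  rintro ⟨n, u, hu, ut⟩
  calc ∑ i ∈ Finset.range n, edist (f (u (i + 1)) - g (u (i + 1))) (f (u i) - g (u i))
      ≤ ∑ i ∈ Finset.range n, (edist (f (u (i + 1))) (f (u i)) + edist (g (u (i + 1))) (g (u i))) := by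
        refine Finset.sum_le_sum fun i _ => ?_
        simp only [edist_dist, Real.dist_eq]
        rw [← ENNReal.ofReal_add (abs_nonneg _) (abs_nonneg _)]
        refine ENNReal.ofReal_le_ofReal ?_
        have : f (u (i + 1)) - g (u (i + 1)) - (f (u i) - g (u i))
          = (f (u (i + 1)) - f (u i)) - (g (u (i + 1)) - g (u i)) := by ring
        rw [this]
        exact abs_sub _ _
    _ = _ := Finset.sum_add_distrib
    _ ≤ _ := add_le_add (eVariationOn.sum_le hu ut) (eVariationOn.sum_le hu ut)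

/-- If `x` has finite and `x + z` has infinite variation. -/
lemma add_variation {x z : ℝ → ℝ} {S : Set ℝ} (hx : eVariationOn x S ≠ ∞) (hz : eVariationOn z S = ∞) :
    eVariationOn (fun t => x t + z t) S = ∞ := by
  by_contra hne
  have h1 := variation_sub_le (fun t => x t + z t) x S
  have h2 : (fun t => x t + z t - x t) = z := by funext t; ring
  rw [h2, hz] at h1
  exact (ENNReal.add_lt_top.2 ⟨lt_top_iff_ne_top.2 hne, lt_top_iff_ne_top.2 hx⟩).not_ge h1

lemma arctan_sub {M x y : ℝ} (hx : |x| ≤ M) (hy : |y| ≤ M) :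
    |x - y| ≤ (1 + M ^ 2) * |Real.arctan x - Real.arctan y| := by
  have hM : 0 ≤ M := (abs_nonneg x).trans hx
  have key : ∀ x y : ℝ, |x| ≤ M → |y| ≤ M → x ≤ y → y - x ≤ (1 + M ^ 2) * (Real.arctan y - Real.arctan x) := by
    intro x y hx hy hxy
    have hx' := abs_le.1 hx
    have hy' := abs_le.1 hy
    have h := (convex_Icc (-M) M).mul_sub_le_image_sub_of_le_deriv (f := Real.arctan) (C := 1 / (1 + M ^ 2))
      Real.continuous_arctan.continuousOn Real.differentiable_arctan.differentiableOn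
      (fun z hz => by
        rw [interior_Icc] at hz
        rw [Real.deriv_arctan]
        have : z ^ 2 ≤ M ^ 2 := by nlinarith [hz.1, hz.2]
        exact one_div_le_one_div_of_le (by positivity) (by linarith)) x hx' y hy' hxy
    have h0 : (0 : ℝ) < 1 + M ^ 2 := by positivity
    calc y - x = (1 + M ^ 2) * (1 / (1 + M ^ 2) * (y - x)) := by field_simp
      _ ≤ _ := by gcongr
  rcases le_total x y with h | h
  · have h1 := key x y hx hy h
    have h2 : Real.arctan x ≤ Real.arctan y := Real.arctan_strictMono.monotone h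
    rw [abs_sub_comm x y, abs_sub_comm (Real.arctan x), abs_of_nonneg (by linarith),
      abs_of_nonneg (by linarith)]
    exact h1
  · have h1 := key y x hy hx h
    have h2 : Real.arctan y ≤ Real.arctan x := Real.arctan_strictMono.monotone h
    rw [abs_of_nonneg (by linarith), abs_of_nonneg (by linarith)]
    exact h1

/-- Composition with `c arctan` keeps the variation infinite. -/
lemma arctan_variation {x : ℝ → ℝ} {a b c : ℝ} (hc : 0 < c) (hx : ContinuousOn x (Icc a b))
    (h : eVariationOn x (Icc a b) = ∞) :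
    eVariationOn (fun t => c * Real.arctan (x t)) (Icc a b) = ∞ := by
  obtain ⟨M, hM⟩ : ∃ M : ℝ, ∀ t ∈ Icc a b, |x t| ≤ M := by
    obtain ⟨M, hM⟩ := isCompact_Icc.exists_bound_of_continuousOn hx
    exact ⟨M, hM⟩
  have h1 : eVariationOn x (Icc a b) ≤
      ENNReal.ofReal ((1 + M ^ 2) / c) * eVariationOn (fun t => c * Real.arctan (x t)) (Icc a b) := by
    refine iSup_le ?_
    rintro ⟨n, u, hu, ut⟩
    calc ∑ i ∈ Finset.range n, edist (x (u (i + 1))) (x (u i))
        ≤ ∑ i ∈ Finset.range n, ENNReal.ofReal ((1 + M ^ 2) / c) *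
            edist (c * Real.arctan (x (u (i + 1)))) (c * Real.arctan (x (u i))) := by
          refine Finset.sum_le_sum fun i _ => ?_
          simp only [edist_dist, Real.dist_eq]
          rw [← ENNReal.ofReal_mul (by positivity)]
          refine ENNReal.ofReal_le_ofReal ?_
          refine (arctan_sub (hM _ (ut _)) (hM _ (ut _))).trans ?_
          rw [← mul_sub, abs_mul, abs_of_pos hc]
          apply le_of_eq
          field_simp
      _ = ENNReal.ofReal ((1 + M ^ 2) / c) * ∑ i ∈ Finset.range n,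
            edist (c * Real.arctan (x (u (i + 1)))) (c * Real.arctan (x (u i))) := by
          rw [Finset.mul_sum]
      _ ≤ _ := by
          gcongr
          exact eVariationOn.sum_le (f := fun t => c * Real.arctan (x t)) hu ut
  rw [h, top_le_iff] at h1
  by_contra hne
  exact ENNReal.mul_ne_top ENNReal.ofReal_ne_top hne h1

/-! ### The homeomorphism -/

variable {m : ℕ}

lemma add_one_ne' (j : Fin (m + 2)) : j + 1 ≠ j := by
  intro h
  have : (1 : Fin (m + 2)) = 0 := by
    have := congrArg (fun i => i - j) h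
    simp at this
  exact absurd this (by simp)

/-- The shear `x_j ↦ x_j + φ (x_{j+1})`. -/
noncomputable def T (j : Fin (m + 2)) : (Fin (m + 2) → ℝ) ≃ₜ (Fin (m + 2) → ℝ) where
  toFun x := Function.update x j (x j + φ (x (j + 1)))
  invFun x := Function.update x j (x j - φ (x (j + 1)))
  left_inv x := by
    have h := add_one_ne' j
    funext i
    by_cases hi : i = j
    · subst hi; simp [h]
    · simp [hi]
  right_inv x := by
    have h := add_one_ne' j
    funext i
    by_cases hi : i = j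
    · subst hi; simp [h]
    · simp [hi]
  continuous_toFun := by
    refine continuous_id.update j ?_
    exact (continuous_apply j).add (φ_continuous.comp (continuous_apply (j + 1)))
  continuous_invFun := by
    refine continuous_id.update j ?_
    exact (continuous_apply j).sub (φ_continuous.comp (continuous_apply (j + 1)))

lemma T_apply (j : Fin (m + 2)) (x : Fin (m + 2) → ℝ) :
    T j x = Function.update x j (x j + φ (x (j + 1))) := rfl

/-- Composition of the first `k` shears. -/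
noncomputable def G : ℕ → ((Fin (m + 2) → ℝ) ≃ₜ (Fin (m + 2) → ℝ))
  | 0 => Homeomorph.refl _
  | k + 1 => (G k).trans (T (Fin.ofNat (m + 2) k))

lemma G_apply (k : ℕ) (hk : k ≤ m + 1) (x : Fin (m + 2) → ℝ) (i : Fin (m + 2)) :
    G k x i = if (i : ℕ) < k then x i + φ (x (i + 1)) else x i := by
  induction k generalizing i with
  | zero => simp [G]
  | succ k ih =>
    have hk' : k ≤ m + 1 := by omega
    have e0 : ((Fin.ofNat (m + 2) k : Fin (m + 2)) : ℕ) = k := by
      simp only [Fin.val_ofNat]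
      exact Nat.mod_eq_of_lt (by omega)
    have e1 : ((Fin.ofNat (m + 2) k + 1 : Fin (m + 2)) : ℕ) = k + 1 := by
      rw [Fin.val_add_one_of_lt, e0]
      rw [Fin.lt_def, e0]
      simp
      omega
    change (T (Fin.ofNat (m + 2) k)) (G k x) i = _
    rw [T_apply]
    by_cases hi : i = Fin.ofNat (m + 2) k
    · subst hi
      rw [Function.update_self, ih hk', ih hk', e0, e1]
      simp
    · rw [Function.update_of_ne hi, ih hk']
      have hne : (i : ℕ) ≠ k := by
        intro h
        apply hi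
        apply Fin.ext
        rw [e0, h]
      by_cases h2 : (i : ℕ) < k
      · rw [if_pos h2, if_pos (by omega)]
      · rw [if_neg h2, if_neg (by omega)]

lemma G_lt (x : Fin (m + 2) → ℝ) {i : Fin (m + 2)} (hi : (i : ℕ) < m + 1) :
    G (m + 2) x i = x i + φ (x (i + 1)) := by
  have e0 : ((Fin.ofNat (m + 2) (m + 1) : Fin (m + 2)) : ℕ) = m + 1 := by
    simp only [Fin.val_ofNat]
    exact Nat.mod_eq_of_lt (by omega)
  change (T (Fin.ofNat (m + 2) (m + 1))) (G (m + 1) x) i = _
  rw [T_apply, Function.update_of_ne, G_apply _ le_rfl, if_pos hi]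
  intro h
  rw [h, e0] at hi
  omega

lemma G_last (x : Fin (m + 2) → ℝ) :
    G (m + 2) x (Fin.last (m + 1)) = x (Fin.last (m + 1)) + φ (x 0 + φ (x 1)) := by
  have e0 : (Fin.ofNat (m + 2) (m + 1) : Fin (m + 2)) = Fin.last (m + 1) := by
    apply Fin.ext
    simp only [Fin.val_ofNat, Fin.val_last]
    exact Nat.mod_eq_of_lt (by omega)
  change (T (Fin.ofNat (m + 2) (m + 1))) (G (m + 1) x) (Fin.last (m + 1)) = _
  rw [e0, T_apply, Function.update_self, G_apply _ le_rfl, G_apply _ le_rfl]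
  simp

/-- Along a nonconstant curve of finite length some coordinate of the image has infinite variation. -/
lemma exists_coord {x : ℝ → Fin (m + 2) → ℝ} {a b : ℝ}
    (hc : ∀ i, ContinuousOn (fun t => x t i) (Icc a b))
    (hv : ∀ i, eVariationOn (fun t => x t i) (Icc a b) ≠ ∞) {t0 t1 : ℝ} (h0 : t0 ∈ Icc a b)
    (h1 : t1 ∈ Icc a b) (hne : x t0 ≠ x t1) :
    ∃ i, eVariationOn (fun t => G (m + 2) (x t) i) (Icc a b) = ∞ := by
  by_cases hex : ∃ j : Fin (m + 2), j ≠ 0 ∧ ∃ s0 ∈ Icc a b, ∃ s1 ∈ Icc a b, x s0 j ≠ x s1 j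
  · obtain ⟨j, hj, s0, hs0, s1, hs1, hs⟩ := hex
    obtain ⟨i, rfl⟩ : ∃ i : Fin (m + 1), j = i.succ := ⟨j.pred hj, (Fin.succ_pred j hj).symm⟩
    refine ⟨i.castSucc, ?_⟩
    have h2 : ∀ t, G (m + 2) (x t) i.castSucc = x t i.castSucc + φ (x t i.succ) := by
      intro t
      rw [G_lt _ (by rw [Fin.val_castSucc]; exact i.isLt)]
      congr 3
      simp
    simp only [h2]
    exact add_variation (hv _) (comp_variation (hc _) hs0 hs1 hs)
  · push Not at hex
    refine ⟨Fin.last (m + 1), ?_⟩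
    simp only [G_last]
    refine add_variation (hv _) (comp_variation (y := fun t => x t 0 + φ (x t 1)) ?_ h0 h1 ?_)
    · exact (hc 0).add (φ_continuous.comp_continuousOn (hc 1))
    · have h3 : x t0 1 = x t1 1 := hex 1 (by simp) t0 h0 t1 h1
      intro h4
      apply hne
      funext j
      by_cases hj : j = 0
      · subst hj
        simp only [h3] at h4
        linarith
      · exact hex j hj t0 h0 t1 h1

/-- The `n`-dimensional Euclidean space. -/
abbrev E (n : ℕ) := EuclideanSpace ℝ (Fin n)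

/-- The embedding of `ℝⁿ`, `n = m + 2`, into the unit ball. -/
noncomputable def F (m : ℕ) (x : E (m + 2)) : E (m + 2) :=
  (EuclideanSpace.equiv (Fin (m + 2)) ℝ).symm
    (Pi.map (fun _ t => (1 / (2 * (m + 2)) : ℝ) * Real.arctan t)
      (G (m + 2) (EuclideanSpace.equiv (Fin (m + 2)) ℝ x)))

lemma isEmbedding_arctan : IsEmbedding Real.arctan := by
  have h : Real.arctan = (fun x => ((Real.tanOrderIso.symm x : Ioo (-(Real.pi / 2)) (Real.pi / 2)) : ℝ)) := rfl
  rw [h]
  exact IsEmbedding.subtypeVal.comp Real.tanOrderIso.symm.toHomeomorph.isEmbedding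

lemma isEmbedding_F (m : ℕ) : IsEmbedding (F m) := by
  have h1 : IsEmbedding (fun t : ℝ => (1 / (2 * (m + 2)) : ℝ) * Real.arctan t) :=
    (Homeomorph.mulLeft₀ (1 / (2 * (m + 2)) : ℝ) (by positivity)).isEmbedding.comp isEmbedding_arctan
  have h2 : IsEmbedding (Pi.map (fun (_ : Fin (m + 2)) t => (1 / (2 * (m + 2)) : ℝ) * Real.arctan t)) :=
    IsEmbedding.piMap fun _ => h1
  exact (EuclideanSpace.equiv (Fin (m + 2)) ℝ).symm.toHomeomorph.isEmbedding.comp
    (h2.comp ((G (m + 2)).isEmbedding.comp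
      (EuclideanSpace.equiv (Fin (m + 2)) ℝ).toHomeomorph.isEmbedding))

lemma F_apply (m : ℕ) (x : E (m + 2)) (i : Fin (m + 2)) :
    F m x i = (1 / (2 * (m + 2)) : ℝ) * Real.arctan (G (m + 2) (fun j => x j) i) := rfl

lemma norm_F_le (m : ℕ) (x : E (m + 2)) : ‖F m x‖ ≤ 1 := by
  have h1 : ∀ i, ‖F m x i‖ ≤ 1 / (m + 2) := by
    intro i
    rw [F_apply, norm_mul, Real.norm_of_nonneg (by positivity : (0 : ℝ) ≤ 1 / (2 * (m + 2)))]
    have h2 : ‖Real.arctan (G (m + 2) (fun j => x j) i)‖ ≤ 2 := by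
      rw [Real.norm_eq_abs, abs_le]
      have h3 := Real.arctan_lt_pi_div_two (G (m + 2) (fun j => x j) i)
      have h4 := Real.neg_pi_div_two_lt_arctan (G (m + 2) (fun j => x j) i)
      have h5 := Real.pi_le_four
      constructor <;> linarith
    calc (1 / (2 * (m + 2)) : ℝ) * ‖Real.arctan (G (m + 2) (fun j => x j) i)‖
        ≤ 1 / (2 * (m + 2)) * 2 := by gcongr
      _ = 1 / (m + 2) := by field_simp
  rw [EuclideanSpace.norm_eq, Real.sqrt_le_one]
  have h6 : ∑ i, ‖F m x i‖ ^ 2 ≤ ∑ _i : Fin (m + 2), (1 / (m + 2) : ℝ) ^ 2 := by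
    refine Finset.sum_le_sum fun i _ => ?_
    gcongr
    exact h1 i
  refine h6.trans ?_
  rw [Finset.sum_const, Finset.card_univ, Fintype.card_fin, nsmul_eq_mul]
  push_cast
  have h7 : (0 : ℝ) < m + 2 := by positivity
  have h8 : ((m : ℝ) + 2) * (1 / (m + 2)) ^ 2 = 1 / (m + 2) := by field_simp
  rw [h8, div_le_one h7]
  have : (0 : ℝ) ≤ m := by positivity
  linarith

/-- Every nonconstant curve of finite length is mapped to a curve of infinite length. -/
lemma F_variation (m : ℕ) {γ : ℝ → E (m + 2)} {a b : ℝ} (hc : ContinuousOn γ (Icc a b))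
    (hv : eVariationOn γ (Icc a b) ≠ ∞) {t0 t1 : ℝ} (h0 : t0 ∈ Icc a b)
    (h1 : t1 ∈ Icc a b) (hne : γ t0 ≠ γ t1) : eVariationOn (fun t => F m (γ t)) (Icc a b) = ∞ := by
  have hproj : ∀ i : Fin (m + 2), LipschitzWith 1 (fun x : E (m + 2) => x i) := by
    intro i
    refine LipschitzWith.of_dist_le_mul fun x y => ?_
    rw [NNReal.coe_one, one_mul, Real.dist_eq, dist_eq_norm]
    exact PiLp.norm_apply_le (x - y) i
  have hle : ∀ (i : Fin (m + 2)) (c : ℝ → E (m + 2)),
      eVariationOn (fun t => c t i) (Icc a b) ≤ eVariationOn c (Icc a b) := by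
    intro i c
    have := (hproj i).lipschitzOnWith (s := univ) |>.comp_eVariationOn_le (f := fun x : E (m + 2) => x i)
      (g := c) (s := Icc a b) (mapsTo_univ _ _)
    rw [ENNReal.coe_one, one_mul] at this
    exact this
  obtain ⟨i, hi⟩ := exists_coord (x := fun t j => γ t j) (a := a) (b := b)
    (fun i => (hproj i).continuous.comp_continuousOn hc)
    (fun i => ne_top_of_le_ne_top hv (hle i γ)) h0 h1
    (fun h => hne (by ext j; exact congrFun h j))
  have hcont : ContinuousOn (fun t => G (m + 2) (fun j => γ t j) i) (Icc a b) := by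
    have h2 : Continuous (fun x : E (m + 2) => G (m + 2) (fun j => x j) i) := by
      refine (continuous_apply i).comp ((G (m + 2)).continuous.comp ?_)
      exact continuous_pi fun j => (hproj j).continuous
    exact h2.comp_continuousOn hc
  have h3 := arctan_variation (c := 1 / (2 * (m + 2))) (by positivity) hcont hi
  exact top_le_iff.1 (h3 ▸ hle i (fun t => F m (γ t)))

/-! ### Dimension one -/

/-- `vol (V ∩ (-∞, t)) - 1`. -/
noncomputable def h (V : Set ℝ) (t : ℝ) : ℝ := (volume (V ∩ Iio t)).toReal - 1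

lemma h_sub {V : Set ℝ} (hV : volume V ≠ ∞) {r t : ℝ} (hrt : r ≤ t) :
    h V t - h V r = (volume (V ∩ Ico r t)).toReal := by
  have h3 : volume (V ∩ Iio t) = volume (V ∩ Iio r) + volume (V ∩ Ico r t) := by
    have e1 : (V ∩ Iio t) ∩ Iio r = V ∩ Iio r := by
      ext x; simp only [mem_inter_iff, mem_Iio]
      constructor
      · rintro ⟨⟨a, b⟩, c⟩; exact ⟨a, c⟩
      · rintro ⟨a, c⟩; exact ⟨⟨a, c.trans_le hrt⟩, c⟩
    have e2 : (V ∩ Iio t) \ Iio r = V ∩ Ico r t := by
      ext x; simp only [mem_inter_iff, mem_Iio, Set.mem_sdiff, mem_Ico, not_lt]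
      tauto
    rw [← measure_inter_add_sdiff (V ∩ Iio t) (measurableSet_Iio (a := r)), e1, e2]
  have f1 : volume (V ∩ Iio r) ≠ ∞ := ne_top_of_le_ne_top hV (measure_mono inter_subset_left)
  have f2 : volume (V ∩ Ico r t) ≠ ∞ := ne_top_of_le_ne_top hV (measure_mono inter_subset_left)
  unfold h
  rw [h3, ENNReal.toReal_add f1 f2]
  ring

lemma h_lip {V : Set ℝ} (hV : volume V ≠ ∞) {r t : ℝ} (hrt : r ≤ t) :
    0 ≤ h V t - h V r ∧ h V t - h V r ≤ t - r := by
  rw [h_sub hV hrt]
  refine ⟨ENNReal.toReal_nonneg, ?_⟩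
  have h1 : volume (V ∩ Ico r t) ≤ ENNReal.ofReal (t - r) := by
    rw [← Real.volume_Ico]
    exact measure_mono inter_subset_right
  exact ENNReal.toReal_le_of_le_ofReal (by linarith) h1

lemma h_isom {V : Set ℝ} (hV : volume V ≠ ∞) {r t : ℝ} (hrt : r ≤ t) (hs : Ico r t ⊆ V) :
    h V t - h V r = t - r := by
  rw [h_sub hV hrt, inter_eq_self_of_subset_right hs, Real.volume_Ico,
    ENNReal.toReal_ofReal (by linarith)]

lemma h_isom' {V : Set ℝ} (hV : volume V ≠ ∞) {r t : ℝ} (hs : uIcc r t ⊆ V) :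
    h V t - h V r = t - r := by
  rcases le_total r t with hrt | hrt
  · rw [uIcc_of_le hrt] at hs
    exact h_isom hV hrt (Ico_subset_Icc_self.trans hs)
  · rw [uIcc_of_ge hrt] at hs
    have := h_isom hV hrt (Ico_subset_Icc_self.trans hs)
    linarith

lemma h_continuous {V : Set ℝ} (hV : volume V ≠ ∞) : Continuous (h V) := by
  have : LipschitzWith 1 (h V) := by
    refine LipschitzWith.of_dist_le_mul fun x y => ?_
    rw [NNReal.coe_one, one_mul, Real.dist_eq, Real.dist_eq]
    rcases le_total x y with hxy | hxy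
    · have := h_lip hV hxy
      rw [abs_sub_comm, abs_sub_comm x y, abs_of_nonneg this.1, abs_of_nonneg (by linarith)]
      exact this.2
    · have := h_lip hV hxy
      rw [abs_of_nonneg this.1, abs_of_nonneg (by linarith)]
      exact this.2
  exact this.continuous

lemma h_lt {V : Set ℝ} (hV : volume V ≠ ∞) (ho : IsOpen V) {r t : ℝ} (hr : r ∈ V) (hrt : r < t) :
    h V r < h V t := by
  obtain ⟨δ, hδ, hb⟩ := Metric.isOpen_iff.1 ho r hr
  set t' := min t (r + δ / 2) with ht'
  have h1 : r < t' := lt_min hrt (by linarith)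
  have h2 : Ico r t' ⊆ V := by
    intro x hx
    apply hb
    rw [Metric.mem_ball, Real.dist_eq, abs_of_nonneg (by linarith [hx.1])]
    have : x < r + δ / 2 := hx.2.trans_le (min_le_right _ _)
    linarith
  have h3 := h_isom hV h1.le h2
  have h4 := (h_lip hV (min_le_left t (r + δ / 2))).1
  rw [← ht'] at h4
  linarith

lemma isEmbedding_h {V : Set ℝ} (hV : volume V ≠ ∞) (ho : IsOpen V) :
    IsEmbedding (fun x : V => h V x) := by
  refine (IsOpenEmbedding.of_continuous_injective_isOpenMap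
    ((h_continuous hV).comp continuous_subtype_val) ?_ ?_).isEmbedding
  · intro x y hxy
    simp only [Function.comp] at hxy
    rcases lt_trichotomy (x : ℝ) y with hlt | heq | hlt
    · exact absurd hxy (h_lt hV ho x.2 hlt).ne
    · exact Subtype.ext heq
    · exact absurd hxy (h_lt hV ho y.2 hlt).ne'
  · intro W hW
    rw [Metric.isOpen_iff]
    rintro _ ⟨x, hx, rfl⟩
    obtain ⟨δ1, hδ1, hb1⟩ := Metric.isOpen_iff.1 hW x hx
    obtain ⟨δ2, hδ2, hb2⟩ := Metric.isOpen_iff.1 ho x x.2
    refine ⟨min δ1 δ2, lt_min hδ1 hδ2, ?_⟩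
    intro z hz
    rw [Metric.mem_ball, Real.dist_eq] at hz
    simp only [Function.comp] at hz
    have hz1 := hz.trans_le (min_le_left _ _)
    have hz2 := hz.trans_le (min_le_right _ _)
    set y : ℝ := x + (z - h V x) with hy
    have hyV : uIcc (x : ℝ) y ⊆ V := by
      intro v hv
      apply hb2
      rw [Metric.mem_ball, Real.dist_eq]
      have h5 : |v - x| ≤ |y - x| := abs_sub_left_of_mem_uIcc hv
      have h6 : y - x = z - h V x := by rw [hy]; ring
      rw [h6] at h5
      exact h5.trans_lt hz2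
    have hyV' : y ∈ V := hyV right_mem_uIcc
    refine ⟨⟨y, hyV'⟩, ?_, ?_⟩
    · apply hb1
      rw [Metric.mem_ball, Subtype.dist_eq, Real.dist_eq]
      have h6 : y - x = z - h V x := by rw [hy]; ring
      change |y - x| < δ1
      rw [h6]
      exact hz1
    · have := h_isom' hV hyV
      simp only [Function.comp]
      rw [hy] at this ⊢
      linarith

lemma abs_h_le {V : Set ℝ} (hV : volume V ≤ ENNReal.ofReal 2) (t : ℝ) : |h V t| ≤ 1 := by
  have h1 : volume (V ∩ Iio t) ≤ ENNReal.ofReal 2 := (measure_mono inter_subset_left).trans hV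
  have h2 := ENNReal.toReal_le_of_le_ofReal (by norm_num) h1
  have h3 : 0 ≤ (volume (V ∩ Iio t)).toReal := ENNReal.toReal_nonneg
  unfold h
  rw [abs_le]
  constructor <;> linarith

/-- The line. -/
noncomputable def e : E 1 ≃ₜ ℝ :=
  (EuclideanSpace.equiv (Fin 1) ℝ).toHomeomorph.trans (Homeomorph.funUnique (Fin 1) ℝ)

lemma e_apply (x : E 1) : e x = x 0 := rfl

lemma dist_e (x y : E 1) : dist (e x) (e y) = dist x y := by
  rw [EuclideanSpace.dist_eq]
  simp [e_apply, Real.dist_eq, Real.sqrt_sq_eq_abs]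

lemma norm_e_symm (t : ℝ) : ‖e.symm t‖ = |t| := by
  have h1 : ‖e.symm t‖ = dist (e.symm t) 0 := (dist_zero_right _).symm
  have h2 : e (0 : E 1) = 0 := rfl
  rw [h1, ← dist_e, h2, Homeomorph.apply_symm_apply, Real.dist_eq, sub_zero]

lemma measurePreserving_e : MeasurePreserving (e : E 1 → ℝ) volume volume :=
  (volume_preserving_funUnique (Fin 1) ℝ).comp (PiLp.volume_preserving_ofLp (Fin 1))

/-! ### The result -/

/-- The curves in `U` become longer: for every curve `γ : [a, b] → U` of finite length the length of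
`f ∘ γ` is at least the length of `γ`. -/
def LengthIncreasing {n : ℕ} (U : Set (E n)) (f : U → E n) : Prop :=
  ∀ (a b : ℝ) (γ : ℝ → U), a ≤ b → ContinuousOn γ (Icc a b) → eVariationOn γ (Icc a b) ≠ ∞ →
    eVariationOn γ (Icc a b) ≤ eVariationOn (f ∘ γ) (Icc a b)

/-- **Length-increasing embeddings.** For every `n ≥ 1` there is `ε > 0` such that every open subset `U`
of `ℝⁿ` of volume at most `ε` admits a length-increasing embedding into the closed unit ball. If
`n ≥ 2` there is an embedding of the whole space `ℝⁿ` into the closed unit ball which maps every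
nonconstant curve of finite length to a curve of infinite length. -/
theorem result :
    (∀ n : ℕ, 1 ≤ n → ∃ ε : ℝ, 0 < ε ∧ ∀ U : Set (E n), IsOpen U → volume U ≤ ENNReal.ofReal ε →
      ∃ f : U → E n, IsEmbedding f ∧ (∀ x, f x ∈ Metric.closedBall (0 : E n) 1) ∧
        LengthIncreasing U f) ∧
    (∀ n : ℕ, 2 ≤ n → ∃ f : E n → E n, IsEmbedding f ∧ (∀ x, f x ∈ Metric.closedBall (0 : E n) 1) ∧
      ∀ (a b : ℝ) (γ : ℝ → E n), ContinuousOn γ (Icc a b) → eVariationOn γ (Icc a b) ≠ ∞ →
        (∃ s ∈ Icc a b, ∃ t ∈ Icc a b, γ s ≠ γ t) → eVariationOn (f ∘ γ) (Icc a b) = ∞) := by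
  constructor
  · intro n hn
    rcases Nat.lt_or_ge 1 n with hn2 | hn2
    · obtain ⟨m, rfl⟩ : ∃ m, n = m + 2 := ⟨n - 2, by omega⟩
      refine ⟨1, one_pos, fun U _ _ => ⟨fun x => F m x, (isEmbedding_F m).comp .subtypeVal, ?_, ?_⟩⟩
      · intro x
        rw [mem_closedBall_zero_iff]
        exact norm_F_le m x
      · intro a b γ _ hc hv
        by_cases hconst : ∃ s ∈ Icc a b, ∃ t ∈ Icc a b, (γ s : E (m + 2)) ≠ γ t
        · obtain ⟨s, hs, t, ht, hst⟩ := hconst
          have h1 : eVariationOn (fun t => (γ t : E (m + 2))) (Icc a b) ≠ ∞ := hv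
          have h2 := F_variation m (continuous_subtype_val.comp_continuousOn hc) h1 hs ht hst
          have h3 : eVariationOn ((fun x : U => F m x) ∘ γ) (Icc a b) = ∞ := h2
          rw [h3]
          exact le_top
        · push Not at hconst
          have h1 : eVariationOn γ (Icc a b) = 0 := by
            rw [eVariationOn.eq_zero_iff]
            intro s hs t ht
            rw [Subtype.ext (hconst s hs t ht), edist_self]
          rw [h1]
          exact bot_le
    · obtain rfl : n = 1 := le_antisymm hn2 hn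
      refine ⟨2, two_pos, fun U hU hvol => ?_⟩
      set V : Set ℝ := e '' U with hVdef
      have hVo : IsOpen V := e.isOpenMap _ hU
      have hpre : U = e ⁻¹' V := (e.injective.preimage_image U).symm
      have hV : volume V ≤ ENNReal.ofReal 2 := by
        rw [hpre, measurePreserving_e.measure_preimage hVo.measurableSet.nullMeasurableSet] at hvol
        exact hvol
      have hV' : volume V ≠ ∞ := ne_top_of_le_ne_top ENNReal.ofReal_ne_top hV
      have hemb : IsEmbedding (codRestrict (fun x : U => e x) V (fun x => mem_image_of_mem _ x.2)) :=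
        (e.isEmbedding.comp .subtypeVal).codRestrict V _
      refine ⟨fun x => e.symm (h V (e x)), ?_, ?_, ?_⟩
      · exact e.symm.isEmbedding.comp ((isEmbedding_h hV' hVo).comp hemb)
      · intro x
        rw [mem_closedBall_zero_iff, norm_e_symm]
        exact abs_h_le hV _
      · intro a b γ hab hc hv
        apply le_of_eq
        have hcy : ContinuousOn (fun t => e (γ t : E 1)) (Icc a b) :=
          e.continuous.comp_continuousOn (continuous_subtype_val.comp_continuousOn hc)
        have hseg : ∀ s ∈ Icc a b, ∀ t ∈ Icc a b, uIcc (e (γ s : E 1)) (e (γ t : E 1)) ⊆ V := by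
          intro s hs t ht
          have h1 : uIcc (e (γ s : E 1)) (e (γ t : E 1)) ⊆ (fun t => e (γ t : E 1)) '' uIcc s t :=
            intermediate_value_uIcc (hcy.mono (uIcc_subset_Icc hs ht))
          refine h1.trans ?_
          rintro _ ⟨r, -, rfl⟩
          exact mem_image_of_mem _ (γ r).2
        have hd : ∀ s ∈ Icc a b, ∀ t ∈ Icc a b,
            edist (e.symm (h V (e (γ s : E 1)))) (e.symm (h V (e (γ t : E 1)))) = edist (γ s) (γ t) := by
          intro s hs t ht
          rw [edist_dist, edist_dist, ← dist_e, Homeomorph.apply_symm_apply,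
            Homeomorph.apply_symm_apply, Subtype.dist_eq, ← dist_e, Real.dist_eq, Real.dist_eq]
          have h1 := h_isom' hV' (hseg t ht s hs)
          rw [h1]
        unfold eVariationOn
        congr 1
        funext p
        refine Finset.sum_congr rfl fun i _ => ?_
        exact (hd _ (p.2.2.2 _) _ (p.2.2.2 _)).symm
  · intro n hn
    obtain ⟨m, rfl⟩ : ∃ m, n = m + 2 := ⟨n - 2, by omega⟩
    refine ⟨F m, isEmbedding_F m, ?_, ?_⟩
    · intro x
      rw [mem_closedBall_zero_iff]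
      exact norm_F_le m x
    · rintro a b γ hc hv ⟨s, hs, t, ht, hst⟩
      exact F_variation m hc hv hs ht hst

end Pool.Agent.Results.MP_ecd4e3_gt.LengthIncreasingEmbedding
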